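import Pool.Agent.Q122.IndexProofs

set_option autoImplicit false

namespace Pool.Agent.Results.MP_ecebd1_co.UnboundedExcess

open Q122

/-- For every `k` there is a finite bipartite graph `G` with at least one edge such that
`df(G) - ⌈sm(G) / 2⌉ ≥ k`. -/
theorem result : ∀ k : ℤ, ∃ (V : Type) (_ : Fintype V) (G : SimpleGraph V),
    G.Colorable 2 ∧ G ≠ ⊥ ∧ k ≤ (diffIndex G : ℤ) - ⌈(sumIndex G : ℚ) / 2⌉ := by
  intro k
  obtain ⟨V, hV, G, h1, h2, -, h3, h4⟩ := exists_bipartite (2 * k.toNat)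
  refine ⟨V, hV, G, h1, h2, ?_⟩
  have h5 : ⌈(sumIndex G : ℚ) / 2⌉ ≤ (k.toNat : ℤ) + 1 := by
    rw [Int.ceil_le]
    have : (sumIndex G : ℚ) ≤ 2 * k.toNat + 2 := by exact_mod_cast h3
    push_cast
    linarith
  have h6 : (2 * (k.toNat : ℤ) + 1) ≤ diffIndex G := by exact_mod_cast h4
  have h7 := Int.self_le_toNat k
  linarith

end Pool.Agent.Results.MP_ecebd1_co.UnboundedExcess
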